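import Pool.Agent.HpE.Split

/-!
# Halving partitions of point sets in 3-space and Tukey depth

`x : Fin n → Fin 3 → ℝ` is a family of `n` points of `ℝ³` and `S` a set of them. The number of
halving partitions is at most `8 n` times the sum of `depth + 1` over the points outside `S`, plus
`345 n² √|S|`.
-/

open Finset Classical

namespace Pool.Agent.Results.MP_f6af21_co.DepthBound

variable {n : ℕ}

/-- The value of the linear functional with coefficients `u` at the point `p`. -/
def val (u p : Fin 3 → ℝ) : ℝ := ∑ c, u c * p c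

/-- The points are distinct and no plane contains four of them. -/
def GeneralPosition (x : Fin n → Fin 3 → ℝ) : Prop :=
  Function.Injective x ∧ ∀ (u : Fin 3 → ℝ) (t : ℝ), u ≠ 0 →
    (univ.filter fun i => val u (x i) = t).card ≤ 3

/-- Some plane has the points with index in `A` strictly on one side and all the other points
strictly on the other side. -/
def Separated (x : Fin n → Fin 3 → ℝ) (A : Finset (Fin n)) : Prop :=
  ∃ (u : Fin 3 → ℝ) (t : ℝ), (∀ i ∈ A, t < val u (x i)) ∧ ∀ i, i ∉ A → val u (x i) < t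

/-- The number `h(X)` of halving partitions: unordered partitions into two parts of size `n / 2`
which are separated by a plane. -/
noncomputable def halvings (x : Fin n → Fin 3 → ℝ) : ℕ :=
  Set.ncard {P : Finset (Finset (Fin n)) |
    ∃ A : Finset (Fin n), 2 * A.card = n ∧ Separated x A ∧ P = {A, Aᶜ}}

/-- The number of points in the closed half space bounded by the plane with normal `u` through the
point `b`. -/
noncomputable def count (x : Fin n → Fin 3 → ℝ) (b : Fin n) (u : Fin 3 → ℝ) : ℕ :=
  (univ.filter fun i => val u (x b) ≤ val u (x i)).card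

/-- The Tukey depth of the point `b`: the least number of points in a closed half space whose
bounding plane contains `b`. -/
noncomputable def depth (x : Fin n → Fin 3 → ℝ) (b : Fin n) : ℕ :=
  sInf {m | ∃ u : Fin 3 → ℝ, u ≠ 0 ∧ count x b u = m}

theorem exists_depth (x : Fin n → Fin 3 → ℝ) (b : Fin n) :
    ∃ u : Fin 3 → ℝ, u ≠ 0 ∧ count x b u = depth x b := by
  have hne : {m | ∃ u : Fin 3 → ℝ, u ≠ 0 ∧ count x b u = m}.Nonempty := by
    refine ⟨_, fun _ => 1, ?_, rfl⟩
    intro h
    have := congrFun h 0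
    simp at this
  exact Nat.sInf_mem hne

/-- the configuration as a function of two variables -/
def cfg (x : Fin n → Fin 3 → ℝ) : Fin n × Fin 3 → ℝ := fun e => x e.1 e.2

theorem ev_cfg (x : Fin n → Fin 3 → ℝ) (u : Fin 3 → ℝ) (i : Fin n) :
    SmH.ev u (cfg x) i = val u (x i) := rfl

theorem genPos_cfg {x : Fin n → Fin 3 → ℝ} (h : GeneralPosition x) : SmH.GenPos (cfg x) := by
  intro u t hu S hS
  refine (card_le_card ?_).trans (h.2 u t hu)
  intro i hi
  exact mem_filter.2 ⟨mem_univ _, hS i hi⟩

theorem depth_pos (x : Fin n → Fin 3 → ℝ) (b : Fin n) : 1 ≤ depth x b := by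
  obtain ⟨u, _, h⟩ := exists_depth x b
  rw [← h]
  exact card_pos.2 ⟨b, mem_filter.2 ⟨mem_univ _, le_rfl⟩⟩

/-- Let `n ≥ 2` be even, let `X` be a set of `n` points of `ℝ³` in general position and `S` a
subset of `X`. Then `h(X) ≤ 8 n ∑ (depth(p) + 1) + 345 n² √|S|`, the sum over the points `p` of `X`
outside `S`. -/
theorem result (n : ℕ) (hn : 2 ≤ n) (x : Fin n → Fin 3 → ℝ) (hx : GeneralPosition x)
    (S : Finset (Fin n)) :
    (halvings x : ℝ) ≤ 8 * (n * ∑ b ∈ Sᶜ, ((depth x b : ℝ) + 1)) +
      345 * n ^ 2 * Real.sqrt S.card := by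
  by_cases h4 : 4 ≤ n
  · choose w hw0 hw using exists_depth x
    obtain ⟨z, hz1, hz2, hz3⟩ := HpE.exists_generic4 (genPos_cfg hx) h4 w
    have hd : ∀ b : Fin n, depth x b = ((univ.erase b).filter fun q =>
            0 ≤ HpD.dot (w b) (HpD.df (cfg x) b q)).card + 1 := by
      intro b
      have h1 : (univ.filter fun i => val (w b) (x b) ≤ val (w b) (x i)) =
          insert b ((univ.erase b).filter fun q =>
            0 ≤ HpD.dot (w b) (HpD.df (cfg x) b q)) := by
        ext q
        simp only [mem_filter, mem_univ, true_and, mem_insert, mem_erase, and_true]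
        rw [HpD.dot_df, ev_cfg, ev_cfg, sub_nonneg]
        constructor
        · intro h
          by_cases h2 : q = b
          · exact Or.inl h2
          · exact Or.inr ⟨h2, h⟩
        · rintro (h | h)
          · rw [h]
          · exact h.2
      rw [← hw b, count, h1, card_insert_of_notMem (by simp)]
    have hmid : ∀ k b, (HpE.mid (cfg x) z k b : ℝ) ≤ n * ((depth x b : ℝ) + 1) := by
      intro k b
      have h1 := HpE.mid_le (genPos_cfg hx) z (w b) b (hz1 b) (hz2 b) k
      have h2 := hd b
      have h3 : HpE.mid (cfg x) z k b ≤ n * (depth x b + 1) := by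
        refine h1.trans (Nat.mul_le_mul_left _ ?_)
        omega
      exact_mod_cast h3
    set R : ℝ := n * ∑ b ∈ Sᶜ, ((depth x b : ℝ) + 1) + 43.1 * n ^ 2 * Real.sqrt S.card with hR
    have hR0 : 0 ≤ R := by positivity
    have hB : ∀ k, ((HpD.tri (cfg x) z k).card : ℝ) ≤ R := by
      intro k
      rw [HpE.tri_card, Nat.cast_sum, ← sum_compl_add_sum S, hR, mul_sum]
      exact add_le_add (sum_le_sum fun b _ => hmid k b)
        (HpE.sum_mid_le (genPos_cfg hx) h4 z hz1 hz3 k S)
    have h1 := HpD.halvings_le_of (genPos_cfg hx) h4 z (by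
      intro p q hpq h
      have h1 := hz1 p q (Ne.symm hpq)
      rw [HpD.dot_df, h, sub_self] at h1
      exact h1 rfl) ⌊R⌋₊ (fun k => Nat.le_floor (hB k))
    have h2 : (halvings x : ℝ) ≤ 8 * ⌊R⌋₊ := by exact_mod_cast h1
    have h3 : (halvings x : ℝ) ≤ 8 * R := by linarith [Nat.floor_le hR0]
    have h5 : (0 : ℝ) ≤ n ^ 2 * Real.sqrt S.card := by positivity
    rw [hR] at h3
    linarith
  · -- two or three points: at most eight halving partitions
    have h1 : halvings x ≤ 8 := by
      have h2 : {P : Finset (Finset (Fin n)) |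
          ∃ A : Finset (Fin n), 2 * A.card = n ∧ Separated x A ∧ P = {A, Aᶜ}} ⊆
          ((univ : Finset (Finset (Fin n))).image fun A => ({A, Aᶜ} : Finset (Finset (Fin n))) :
            Set (Finset (Finset (Fin n)))) := by
        rintro P ⟨A, _, _, rfl⟩
        rw [mem_coe, mem_image]
        exact ⟨A, mem_univ _, rfl⟩
      calc halvings x ≤ _ := Set.ncard_le_ncard h2 (finite_toSet _)
        _ = _ := Set.ncard_coe_finset _
        _ ≤ (univ : Finset (Finset (Fin n))).card := card_image_le
        _ = 2 ^ n := by rw [card_univ, Fintype.card_finset, Fintype.card_fin]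
        _ ≤ 2 ^ 3 := Nat.pow_le_pow_right (by norm_num) (by omega)
        _ = 8 := by norm_num
    have h1' : (halvings x : ℝ) ≤ 8 := by exact_mod_cast h1
    have hn' : (2 : ℝ) ≤ n := by exact_mod_cast hn
    have hs0 : 0 ≤ ∑ b ∈ Sᶜ, ((depth x b : ℝ) + 1) := sum_nonneg fun b _ => by positivity
    rcases S.eq_empty_or_nonempty with hS | hS
    · have h2 : (1 : ℝ) ≤ ∑ b ∈ Sᶜ, ((depth x b : ℝ) + 1) := by
        rw [hS, compl_empty]
        calc (1 : ℝ) ≤ (depth x ⟨0, by omega⟩ : ℝ) + 1 := by
              have : (0 : ℝ) ≤ depth x ⟨0, by omega⟩ := Nat.cast_nonneg _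
              linarith
          _ ≤ _ := single_le_sum (f := fun b : Fin n => (depth x b : ℝ) + 1)
              (fun b _ => by positivity) (mem_univ _)
      have h3 : (1 : ℝ) ≤ n * ∑ b ∈ Sᶜ, ((depth x b : ℝ) + 1) := by nlinarith
      have h5 : (0 : ℝ) ≤ n ^ 2 * Real.sqrt S.card := by positivity
      linarith
    · have h2 : (1 : ℝ) ≤ Real.sqrt S.card := by
        rw [Real.one_le_sqrt]
        exact_mod_cast card_pos.2 hS
      have h3 : (4 : ℝ) ≤ n ^ 2 := by nlinarith
      have h5 : (4 : ℝ) ≤ n ^ 2 * Real.sqrt S.card := by nlinarith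
      have h6 : 0 ≤ n * ∑ b ∈ Sᶜ, ((depth x b : ℝ) + 1) := by positivity
      linarith

end Pool.Agent.Results.MP_f6af21_co.DepthBound
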